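import Mathlib

set_option autoImplicit false

/-!
# Counting minimal tight families
-/

namespace Pool.Agent.R690.Pd

open Finset

variable {q : ℕ}

/-- The degree of `a` on the set `B`. -/
def ev (a : Fin q → ℕ) (B : Finset (Fin q)) : ℕ := ∑ i ∈ B, a i

/-- The maximal degree on `B`. -/
def cm (Q : Finset (Fin q → ℕ)) (B : Finset (Fin q)) : ℕ := Q.sup fun a => ev a B

/-- The vectors of maximal degree on `B`. -/
def Sm (Q : Finset (Fin q → ℕ)) (B : Finset (Fin q)) : Finset (Fin q → ℕ) :=
  Q.filter fun a => ev a B = cm Q B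

/-- The support. -/
def su (a : Fin q → ℕ) : Finset (Fin q) := univ.filter fun i => a i ≠ 0

theorem ev_le_cm {Q : Finset (Fin q → ℕ)} {a : Fin q → ℕ} (ha : a ∈ Q) (B : Finset (Fin q)) :
    ev a B ≤ cm Q B := Finset.le_sup (f := fun a => ev a B) ha

theorem ev_mono (a : Fin q → ℕ) {A B : Finset (Fin q)} (h : A ⊆ B) : ev a A ≤ ev a B :=
  Finset.sum_le_sum_of_subset h

theorem Sm_nonempty {Q : Finset (Fin q → ℕ)} (hQ : Q.Nonempty) (B : Finset (Fin q)) :
    (Sm Q B).Nonempty := by
  obtain ⟨a, ha, h⟩ := Finset.exists_mem_eq_sup Q hQ fun a => ev a B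
  exact ⟨a, Finset.mem_filter.2 ⟨ha, h.symm⟩⟩

theorem ev_inter (a : Fin q → ℕ) (B : Finset (Fin q)) : ev a (B ∩ su a) = ev a B := by
  rw [ev, ev]
  refine Finset.sum_subset Finset.inter_subset_left fun i hi hi' => ?_
  by_contra h
  exact hi' (Finset.mem_inter.2 ⟨hi, by simpa [su] using h⟩)

theorem ev_su (a : Fin q → ℕ) {B : Finset (Fin q)} (h : su a ⊆ B) : ev a B = ∑ i, a i := by
  have h1 := ev_inter a B
  have h2 := ev_inter a univ
  rw [Finset.inter_eq_right.2 h] at h1
  rw [Finset.univ_inter] at h2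
  rw [← h1, h2]; rfl

theorem Sm_inter {Q : Finset (Fin q → ℕ)} {a : Fin q → ℕ} {B : Finset (Fin q)} (ha : a ∈ Sm Q B) :
    Sm Q (B ∩ su a) ⊆ Sm Q B := by
  intro a' ha'
  rw [Sm, Finset.mem_filter] at ha ha' ⊢
  refine ⟨ha'.1, ?_⟩
  have h1 := ev_inter a B
  have h2 := ev_le_cm ha.1 (B ∩ su a)
  have h3 := ev_mono a' (Finset.inter_subset_left : B ∩ su a ⊆ B)
  have h4 := ev_le_cm ha'.1 B
  omega

theorem card_su_le (a : Fin q → ℕ) (B : Finset (Fin q)) (h : B ⊆ su a) : B.card ≤ ev a B := by
  rw [Finset.card_eq_sum_ones, ev]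
  refine Finset.sum_le_sum fun i hi => ?_
  have := h hi
  simp only [su, mem_filter, mem_univ, true_and] at this
  omega

/-- A family of at most `q` choose `r` sets whose tight families are below all others. -/
theorem exists_family {r : ℕ} (hr : 1 ≤ r) (hq : 2 ^ r + r ≤ q + 1) {Q : Finset (Fin q → ℕ)}
    (hQ : Q.Nonempty) (hQr : ∀ a ∈ Q, ∑ i, a i = r) :
    ∃ Rs : Finset (Finset (Fin q)), Rs.Nonempty ∧ Rs.card ≤ q.choose r ∧
      ∀ B, ∃ R ∈ Rs, Sm Q R ⊆ Sm Q B := by
  classical
  -- the selection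
  have hsel : ∀ s : Finset (Fin q → ℕ), ∃ R : Finset (Fin q), (∃ B, Sm Q B = s) →
      Sm Q R = s ∧ ∀ B, Sm Q B = s → R.card ≤ B.card := by
    intro s
    by_cases h : ∃ B, Sm Q B = s
    · have h1 : (univ.filter fun B : Finset (Fin q) => Sm Q B = s).Nonempty := by
        obtain ⟨B, hB⟩ := h
        exact ⟨B, by simpa using hB⟩
      obtain ⟨R, hR, hR'⟩ := Finset.exists_min_image _ Finset.card h1
      refine ⟨R, fun _ => ⟨by simpa using hR, fun B hB => hR' B (by simpa using hB)⟩⟩
    · exact ⟨∅, fun h' => absurd h' h⟩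
  choose sel hsel using hsel
  set M : Finset (Finset (Fin q → ℕ)) :=
    (univ.image (Sm Q)).filter fun s => ∀ B, Sm Q B ⊆ s → Sm Q B = s with hM
  have hMem : ∀ s ∈ M, (∃ B, Sm Q B = s) ∧ ∀ B, Sm Q B ⊆ s → Sm Q B = s := by
    intro s hs
    rw [hM, Finset.mem_filter, Finset.mem_image] at hs
    obtain ⟨⟨B, -, hB⟩, h⟩ := hs
    exact ⟨⟨B, hB⟩, h⟩
  set Rs := M.image sel with hRs
  -- properties of the members
  have hR1 : ∀ R ∈ Rs, ∀ B, Sm Q B ⊆ Sm Q R → Sm Q B = Sm Q R := by
    intro R hR
    rw [hRs, Finset.mem_image] at hR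
    obtain ⟨s, hs, rfl⟩ := hR
    obtain ⟨h1, h2⟩ := hMem s hs
    rw [(hsel s h1).1]
    exact h2
  have hR2 : ∀ R ∈ Rs, ∀ R' ∈ Rs, Sm Q R = Sm Q R' → R = R' := by
    intro R hR R' hR' h
    rw [hRs, Finset.mem_image] at hR hR'
    obtain ⟨s, hs, rfl⟩ := hR
    obtain ⟨s', hs', rfl⟩ := hR'
    rw [(hsel s (hMem s hs).1).1, (hsel s' (hMem s' hs').1).1] at h
    rw [h]
  have hR3 : ∀ R ∈ Rs, ∀ a ∈ Sm Q R, R ⊆ su a := by
    intro R hR a ha
    have h1 := hR1 R hR _ (Sm_inter ha)
    rw [hRs, Finset.mem_image] at hR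
    obtain ⟨s, hs, rfl⟩ := hR
    have h2 := hsel s (hMem s hs).1
    have h3 := h2.2 _ (h1.trans h2.1)
    have h4 := Finset.eq_of_subset_of_card_le (Finset.inter_subset_left : sel s ∩ su a ⊆ _) h3
    exact Finset.inter_eq_left.1 h4
  have hcov : ∀ B, ∃ R ∈ Rs, Sm Q R ⊆ Sm Q B := by
    intro B
    have h1 : ((univ.image (Sm Q)).filter fun s => s ⊆ Sm Q B).Nonempty :=
      ⟨Sm Q B, Finset.mem_filter.2 ⟨Finset.mem_image_of_mem _ (mem_univ B), subset_refl _⟩⟩
    obtain ⟨s, hs, hs'⟩ := Finset.exists_min_image _ Finset.card h1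
    rw [Finset.mem_filter] at hs
    have h2 : s ∈ M := by
      refine Finset.mem_filter.2 ⟨hs.1, fun B' hB' => ?_⟩
      refine Finset.eq_of_subset_of_card_le hB' (hs' _ ?_)
      exact Finset.mem_filter.2 ⟨Finset.mem_image_of_mem _ (mem_univ B'), hB'.trans hs.2⟩
    refine ⟨sel s, Finset.mem_image_of_mem _ h2, ?_⟩
    rw [(hsel s (hMem s h2).1).1]
    exact hs.2
  refine ⟨Rs, ?_, ?_, hcov⟩
  · obtain ⟨R, hR, -⟩ := hcov ∅
    exact ⟨R, hR⟩
  -- sizes
  have hcard : ∀ R ∈ Rs, R.card ≤ r := by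
    intro R hR
    obtain ⟨a, ha⟩ := Sm_nonempty hQ R
    have h1 := card_su_le a R (hR3 R hR a ha)
    have h2 := ev_mono a (Finset.subset_univ R)
    have h3 : ev a univ = r := hQr a (Finset.mem_filter.1 ha).1
    omega
  -- the killing sets
  have hkill : ∀ R : Finset (Fin q), ∃ D : Finset (Fin q), R ∈ Rs → R.card ≠ r →
      R ⊆ D ∧ D.card = r - 1 ∧ ∀ B : Finset (Fin q), B.card = r → D ⊆ B → B ∉ Rs := by
    intro R
    by_cases hR : R ∈ Rs ∧ R.card ≠ r
    swap
    · exact ⟨∅, fun h1 h2 => absurd ⟨h1, h2⟩ hR⟩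
    obtain ⟨hR, hRr⟩ := hR
    have hRle := hcard R hR
    have h2r : 0 < 2 ^ r := by positivity
    obtain ⟨a, ha⟩ := Sm_nonempty hQ R
    have haQ : a ∈ Q := (Finset.mem_filter.1 ha).1
    have haR : ev a R = cm Q R := (Finset.mem_filter.1 ha).2
    by_cases hc : cm Q R = R.card
    · obtain ⟨D, hRD, hD⟩ : ∃ D, R ⊆ D ∧ D.card = r - 1 := by
        obtain ⟨D, h1, -, h3⟩ := Finset.exists_subsuperset_card_eq (Finset.subset_univ R)
          (n := r - 1) (by omega) (by rw [Finset.card_univ, Fintype.card_fin]; omega)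
        exact ⟨D, h1, h3⟩
      refine ⟨D, fun _ _ => ⟨hRD, hD, fun B hB hDB hBR => ?_⟩⟩
      have h1 : Sm Q B ⊆ Sm Q R := by
        intro a' ha'
        have h2 := hR3 B hBR a' ha'
        have ha'Q : a' ∈ Q := (Finset.mem_filter.1 ha').1
        have h3 : ev a' B ≤ r := by
          have := ev_mono a' (Finset.subset_univ B)
          have h3 : ev a' univ = r := hQr a' ha'Q
          omega
        have h4 : ∀ i ∈ B, 1 ≤ a' i := by
          intro i hi
          have := h2 hi
          simp only [su, mem_filter, mem_univ, true_and] at this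
          omega
        have h5 : ∑ i ∈ B, 1 = ∑ i ∈ B, a' i := by
          have h6 := card_su_le a' B h2
          rw [← Finset.card_eq_sum_ones]
          rw [ev] at h3 h6
          omega
        have h7 := (Finset.sum_eq_sum_iff_of_le h4).1 h5
        refine Finset.mem_filter.2 ⟨ha'Q, ?_⟩
        rw [hc, ev, Finset.card_eq_sum_ones]
        exact Finset.sum_congr rfl fun i hi => (h7 i (hDB (hRD hi))).symm
      have h2 := hR2 B hBR R hR (hR1 R hR B h1)
      exact hRr (h2 ▸ hB)
    · have hRs' := hR3 R hR a ha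
      have h1 := card_su_le a R hRs'
      have h2 : (su a).card ≤ r - 1 := by
        have h3 : (su a \ R).card ≤ ev a (su a \ R) := card_su_le a _ Finset.sdiff_subset
        have h4 : ev a (su a \ R) + ev a R = ev a (su a) := Finset.sum_sdiff hRs'
        have h5 : ev a (su a) = r := (ev_su a (subset_refl _)).trans (hQr a haQ)
        have h6 := Finset.card_sdiff_add_card_eq_card hRs'
        omega
      obtain ⟨D, hSD, hD⟩ : ∃ D, su a ⊆ D ∧ D.card = r - 1 := by
        obtain ⟨D, h1, -, h3⟩ := Finset.exists_subsuperset_card_eq (Finset.subset_univ (su a))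
          (n := r - 1) h2 (by rw [Finset.card_univ, Fintype.card_fin]; omega)
        exact ⟨D, h1, h3⟩
      refine ⟨D, fun _ _ => ⟨hRs'.trans hSD, hD, fun B hB hDB hBR => ?_⟩⟩
      have h3 : ev a B = r := (ev_su a (hSD.trans hDB)).trans (hQr a haQ)
      have h4 : cm Q B ≤ r := by
        refine Finset.sup_le fun a' ha' => ?_
        have := ev_mono a' (Finset.subset_univ B)
        have h5 : ev a' univ = r := hQr a' ha'
        omega
      have h5 : a ∈ Sm Q B := Finset.mem_filter.2 ⟨haQ, le_antisymm (ev_le_cm haQ B) (by omega)⟩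
      have h6 := Finset.card_le_card (hR3 B hBR a h5)
      omega
  choose D hD using hkill
  -- double counting
  set s := Rs.filter fun R => R.card ≠ r with hs
  set t := (Finset.powersetCard r (univ : Finset (Fin q))).filter fun B => B ∉ Rs with ht
  have hst : s.card * (q - r + 1) ≤ t.card * 2 ^ r := by
    refine Finset.card_mul_le_card_mul (fun R B => D R ⊆ B) ?_ ?_
    · intro R hR
      rw [hs, Finset.mem_filter] at hR
      obtain ⟨h1, h2, h3⟩ := hD R hR.1 hR.2
      have h4 : ((univ \ D R).image fun x => insert x (D R)).card = q - r + 1 := by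
        rw [Finset.card_image_of_injOn, Finset.card_sdiff_of_subset (Finset.subset_univ _), h2,
          Finset.card_univ, Fintype.card_fin]
        · have : 0 < 2 ^ r := by positivity
          omega
        · intro x hx y hy hxy
          simp only [coe_sdiff, coe_univ, Set.mem_sdiff, Set.mem_univ, mem_coe, true_and] at hx hy
          have : x ∈ insert y (D R) := by
            rw [← show insert x (D R) = insert y (D R) from hxy]
            exact Finset.mem_insert_self _ _
          rcases Finset.mem_insert.1 this with h | h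
          · exact h
          · exact absurd h hx
      rw [← h4]
      refine Finset.card_le_card fun B hB => ?_
      rw [Finset.mem_image] at hB
      obtain ⟨x, hx, rfl⟩ := hB
      rw [Finset.mem_sdiff] at hx
      have h5 : (insert x (D R)).card = r := by
        rw [Finset.card_insert_of_notMem hx.2, h2]; omega
      rw [Finset.mem_bipartiteAbove, ht, Finset.mem_filter, Finset.mem_powersetCard]
      exact ⟨⟨⟨Finset.subset_univ _, h5⟩, h3 _ h5 (Finset.subset_insert _ _)⟩,
        Finset.subset_insert _ _⟩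
    · intro B hB
      rw [ht, Finset.mem_filter, Finset.mem_powersetCard] at hB
      rw [← hB.1.2, ← Finset.card_powerset]
      refine Finset.card_le_card fun R hR => ?_
      rw [Finset.mem_bipartiteBelow, hs, Finset.mem_filter] at hR
      rw [Finset.mem_powerset]
      exact (hD R hR.1.1 hR.1.2).1.trans hR.2
  have hst' : s.card ≤ t.card := by
    have h1 : t.card * 2 ^ r ≤ t.card * (q - r + 1) := Nat.mul_le_mul_left _ (by omega)
    exact Nat.le_of_mul_le_mul_right (hst.trans h1) (by omega)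
  have h1 : Rs.card = s.card + (Rs.filter fun R => ¬ R.card ≠ r).card :=
    (Finset.card_filter_add_card_filter_not _).symm
  have h2 : (Finset.powersetCard r (univ : Finset (Fin q))).card =
      t.card + ((Finset.powersetCard r (univ : Finset (Fin q))).filter fun B => ¬ B ∉ Rs).card :=
    (Finset.card_filter_add_card_filter_not _).symm
  have h3 : (Rs.filter fun R => ¬ R.card ≠ r).card ≤
      ((Finset.powersetCard r (univ : Finset (Fin q))).filter fun B => ¬ B ∉ Rs).card := by
    refine Finset.card_le_card fun R hR => ?_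
    rw [Finset.mem_filter] at hR ⊢
    rw [Finset.mem_powersetCard]
    exact ⟨⟨Finset.subset_univ _, by simpa using hR.2⟩, fun h => h hR.1⟩
  rw [Finset.card_powersetCard, Finset.card_univ, Fintype.card_fin] at h2
  omega

end Pool.Agent.R690.Pd
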