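import Pool.Agent.R690.Pd.Tools
import Pool.Agent.R690.Pd.Count
import Pool.Agent.R690.Kos.Fld

set_option autoImplicit false

/-!
# Vanishing of the homology of the strand complexes of powers of square-free monomial ideals
-/

namespace Pool.Agent.R690.Pd

open Finset Pool.Agent.R690.Kos

variable {q n : ℕ}

/-- The complex on the variables, where the variable `j` divides the generators in `A j`: the sets
`T` of variables such that some `a` in `Q` does not have maximal degree on any `A j`, `j ∈ T`. -/
def KQ (Q : Finset (Fin q → ℕ)) (A : Fin n → Finset (Fin q)) (T : Finset (Fin n)) : Prop :=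
  ∃ a ∈ Q, ∀ j ∈ T, ev a (A j) < cm Q (A j)

theorem KQ_down (Q : Finset (Fin q → ℕ)) (A : Fin n → Finset (Fin q)) : Down (KQ Q A) := by
  rintro S T ⟨a, ha, h⟩ hST
  exact ⟨a, ha, fun j hj => h j (hST hj)⟩

theorem dl_KQ (Q : Finset (Fin q → ℕ)) (A : Fin n → Finset (Fin q)) (B : Finset (Fin q)) :
    dl (KQ Q (Fin.snoc (α := fun _ => Finset (Fin q)) A B)) = KQ Q A := by
  funext T
  apply propext
  constructor
  · rintro ⟨a, ha, h⟩
    refine ⟨a, ha, fun j hj => ?_⟩
    have := h j.castSucc (mem_io.2 hj)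
    rwa [Fin.snoc_castSucc] at this
  · rintro ⟨a, ha, h⟩
    refine ⟨a, ha, fun j hj => ?_⟩
    induction j using Fin.lastCases with
    | last => exact absurd hj (last_notMem_io T)
    | cast j =>
      rw [Fin.snoc_castSucc]
      exact h j (mem_io.1 hj)

theorem lk_KQ (Q : Finset (Fin q → ℕ)) (A : Fin n → Finset (Fin q)) (B : Finset (Fin q)) :
    lk (KQ Q (Fin.snoc (α := fun _ => Finset (Fin q)) A B)) =
      fun T => ∃ a ∈ Q.filter (fun a => ev a B < cm Q B), ∀ j ∈ T, ev a (A j) < cm Q (A j) := by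
  funext T
  apply propext
  constructor
  · rintro ⟨a, ha, h⟩
    have h1 := h (Fin.last n) (Finset.mem_insert_self _ _)
    rw [Fin.snoc_last] at h1
    refine ⟨a, Finset.mem_filter.2 ⟨ha, h1⟩, fun j hj => ?_⟩
    have := h j.castSucc (Finset.mem_insert_of_mem (mem_io.2 hj))
    rwa [Fin.snoc_castSucc] at this
  · rintro ⟨a, ha, h⟩
    rw [Finset.mem_filter] at ha
    refine ⟨a, ha.1, fun j hj => ?_⟩
    induction j using Fin.lastCases with
    | last => rw [Fin.snoc_last]; exact ha.2
    | cast j =>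
      rw [Fin.snoc_castSucc]
      rw [Finset.mem_insert, mem_io] at hj
      exact h j (hj.resolve_left (Fin.castSucc_lt_last j).ne)

variable (K : Type*) [Field K]

/-- The case in which all sets occur. -/
theorem star_full {r : ℕ} (hr : 1 ≤ r) (hq : 2 ^ r + r ≤ q + 1) {Q : Finset (Fin q → ℕ)}
    (hQ : Q.Nonempty) (hQr : ∀ a ∈ Q, ∑ i, a i = r) (A : Fin n → Finset (Fin q))
    (hA : ∀ B, ∃ j, A j = B) {i : ℕ} (hi : q.choose r ≤ i) : hm K (KQ Q A) i = 0 := by
  classical
  obtain ⟨Rs, h1, h2, h3⟩ := exists_family hr hq hQ hQr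
  choose f hf using hA
  refine hm_doms K (KQ_down Q A) (W := Rs.image f) (fun v _ => ?_)
    (hm_on_zero K (KQ_down Q A) (h1.image f) (Finset.card_image_le.trans (h2.trans hi)))
  obtain ⟨R, hR, hR'⟩ := h3 (A v)
  refine ⟨f R, Finset.mem_image_of_mem f hR, ?_⟩
  rintro T hvT ⟨a, ha, h⟩
  refine ⟨a, ha, fun j hj => ?_⟩
  rcases Finset.mem_insert.1 hj with rfl | hj
  · rw [hf]
    refine lt_of_le_of_ne (ev_le_cm ha R) fun he => ?_
    have h4 : a ∈ Sm Q (A v) := hR' (Finset.mem_filter.2 ⟨ha, he⟩)
    exact (h v hvT).ne (Finset.mem_filter.1 h4).2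
  · exact h j hj

/-- Vanishing for all complexes. -/
theorem star {r : ℕ} (hr : 1 ≤ r) (hq : 2 ^ r + r ≤ q + 1) (N : ℕ) :
    ∀ Q : Finset (Fin q → ℕ), Q.card = N → (∀ a ∈ Q, ∑ i, a i = r) →
    ∀ (n : ℕ) (A : Fin n → Finset (Fin q)) (i : ℕ), q.choose r ≤ i → hm K (KQ Q A) i = 0 := by
  classical
  induction N using Nat.strong_induction_on with
  | _ N ihN =>
    intro Q hN hQr n A i hi
    rcases Q.eq_empty_or_nonempty with hQ | hQ
    · subst hQ
      refine hm_void K (KQ_down _ A) ?_ i
      rintro ⟨a, ha, -⟩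
      exact absurd ha (Finset.notMem_empty a)
    -- induction on the number of missing sets
    induction hM : ((univ : Finset (Finset (Fin q))) \ univ.image A).card generalizing n with
    | zero =>
      refine star_full K hr hq hQ hQr A (fun B => ?_) hi
      rw [Finset.card_eq_zero, Finset.sdiff_eq_empty_iff_subset] at hM
      have := hM (mem_univ B)
      rw [Finset.mem_image] at this
      obtain ⟨j, -, hj⟩ := this
      exact ⟨j, hj⟩
    | succ M ihM =>
      obtain ⟨B, hB⟩ := Finset.card_pos.1 (by rw [hM]; exact Nat.succ_pos M :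
        0 < ((univ : Finset (Finset (Fin q))) \ univ.image A).card)
      have himg : univ.image (Fin.snoc (α := fun _ => Finset (Fin q)) A B) =
          insert B (univ.image A) := by
        ext C
        simp only [mem_image, mem_univ, true_and, mem_insert]
        constructor
        · rintro ⟨j, rfl⟩
          induction j using Fin.lastCases with
          | last => left; rw [Fin.snoc_last]
          | cast j => right; exact ⟨j, by rw [Fin.snoc_castSucc]⟩
        · rintro (rfl | ⟨j, rfl⟩)
          · exact ⟨Fin.last n, by rw [Fin.snoc_last]⟩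
          · exact ⟨j.castSucc, by rw [Fin.snoc_castSucc]⟩
      have hM' : ((univ : Finset (Finset (Fin q))) \
          univ.image (Fin.snoc (α := fun _ => Finset (Fin q)) A B)).card = M := by
        rw [himg, Finset.sdiff_insert, Finset.card_erase_of_mem hB, hM, Nat.add_sub_cancel]
      have h1 := ihM (n + 1) (Fin.snoc (α := fun _ => Finset (Fin q)) A B) hM'
      rw [← dl_KQ Q A B]
      refine hm_dl_zero K (KQ_down _ _) h1 ?_
      rw [lk_KQ]
      set Q' := Q.filter (fun a => ev a B < cm Q B) with hQ'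
      have hlt : Q'.card < N := by
        rw [← hN]
        refine Finset.card_lt_card (Finset.filter_ssubset.2 ?_)
        obtain ⟨a, ha⟩ := Sm_nonempty hQ B
        rw [Sm, Finset.mem_filter] at ha
        exact ⟨a, ha.1, by rw [ha.2]; exact lt_irrefl _⟩
      have hQ'r : ∀ a ∈ Q', ∑ i, a i = r := fun a ha => hQr a (Finset.mem_filter.1 ha).1
      have hcle : ∀ C, cm Q' C ≤ cm Q C := fun C => Finset.sup_mono (Finset.filter_subset _ _)
      by_cases h2 : ∃ k, cm Q' (A k) < cm Q (A k)
      · obtain ⟨k, hk⟩ := h2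
        refine hm_cone K k ?_ i
        rintro T ⟨a, ha, h⟩
        refine ⟨a, ha, fun j hj => ?_⟩
        rcases Finset.mem_insert.1 hj with rfl | hj
        · exact (ev_le_cm ha _).trans_lt hk
        · exact h j hj
      · push Not at h2
        have h3 : (fun T : Finset (Fin n) => ∃ a ∈ Q', ∀ j ∈ T, ev a (A j) < cm Q (A j)) = KQ Q' A := by
          funext T
          have h4 : ∀ k, cm Q (A k) = cm Q' (A k) := fun k => le_antisymm (h2 k) (hcle _)
          simp only [KQ, h4]
        rw [h3]
        exact ihN _ hlt Q' rfl hQ'r n A i hi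

/-! ### Powers of square-free monomial ideals -/

/-- The exponent vectors of the products of the generators `m l`. -/
theorem pw_sq (m : Fin q → Finset (Fin n)) (r : ℕ) (u : Fin n →₀ ℕ) :
    u ∈ pw (Set.range fun l => eT (m l)) r ↔
      ∃ a : Fin q → ℕ, ∑ i, a i = r ∧ ∀ j, u j = ev a (univ.filter fun l => j ∈ m l) := by
  constructor
  · intro hu
    induction r generalizing u with
    | zero =>
      rw [pw, Set.mem_singleton_iff] at hu
      subst hu
      exact ⟨fun _ => 0, by simp, fun j => by simp [ev]⟩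
    | succ r ih =>
      obtain ⟨v, hv, g, ⟨l, rfl⟩, rfl⟩ := hu
      obtain ⟨a, ha, h⟩ := ih v hv
      refine ⟨fun i => a i + if i = l then 1 else 0, ?_, fun j => ?_⟩
      · rw [Finset.sum_add_distrib, ha, Finset.sum_ite_eq' univ l, if_pos (mem_univ l)]
      · rw [Finsupp.coe_add, Pi.add_apply, h j, ev, ev, Finset.sum_add_distrib]
        congr 1
        beta_reduce
        rw [eT_apply, Finset.sum_ite_eq']
        simp
  · rintro ⟨a, ha, h⟩
    have h1 : ∀ s : Finset (Fin q), ∑ l ∈ s, a l • eT (m l) ∈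
        pw (Set.range fun l => eT (m l)) (∑ l ∈ s, a l) := by
      classical
      intro s
      induction s using Finset.induction_on with
      | empty => rw [Finset.sum_empty, Finset.sum_empty]; exact Set.mem_singleton _
      | insert l s hl ih =>
        rw [Finset.sum_insert hl, Finset.sum_insert hl]
        exact pw_add (pw_nsmul (G := Set.range fun l => eT (m l)) (g := eT (m l)) ⟨l, rfl⟩ _) ih
    have h2 := h1 univ
    rw [ha] at h2
    have h3 : u = ∑ l, a l • eT (m l) := by
      ext j
      rw [h j, Finsupp.coe_finsetSum, Finset.sum_apply, ev, Finset.sum_filter]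
      refine Finset.sum_congr rfl fun l _ => ?_
      rw [Finsupp.coe_smul, Pi.smul_apply, eT_apply, smul_eq_mul]
      split_ifs <;> simp
    rw [h3]; exact h2

/-- The strands vanish. -/
theorem hm_sq {r : ℕ} (hr : 1 ≤ r) (hq : 2 ^ r + r ≤ q + 1) (m : Fin q → Finset (Fin n))
    (b : Fin n →₀ ℕ) {i : ℕ} (hi : q.choose r ≤ i) :
    hm K (Fc (pw (Set.range fun l => eT (m l)) r) b) i = 0 := by
  classical
  set A : Fin n → Finset (Fin q) := fun j => univ.filter fun l => j ∈ m l with hA
  have hFc : ∀ T, Fc (pw (Set.range fun l => eT (m l)) r) b T ↔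
      ∃ a : Fin q → ℕ, ∑ i, a i = r ∧ ∀ j, ev a (A j) + (if j ∈ T then 1 else 0) ≤ b j := by
    intro T
    constructor
    · rintro ⟨u, hu, h⟩
      obtain ⟨a, ha, h'⟩ := (pw_sq m r u).1 hu
      refine ⟨a, ha, fun j => ?_⟩
      have := h j
      rwa [Finsupp.coe_add, Pi.add_apply, h' j, eT_apply] at this
    · rintro ⟨a, ha, h⟩
      refine ⟨Finsupp.equivFunOnFinite.symm fun j => ev a (A j), (pw_sq m r _).2 ⟨a, ha, fun j => rfl⟩,
        fun j => ?_⟩
      rw [Finsupp.coe_add, Pi.add_apply, eT_apply]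
      exact h j
  set Q : Finset (Fin q → ℕ) := (Finset.piAntidiag univ r).filter fun a => ∀ j, ev a (A j) ≤ b j
    with hQ
  have hQm : ∀ a, a ∈ Q ↔ ∑ i, a i = r ∧ ∀ j, ev a (A j) ≤ b j := by
    intro a
    rw [hQ, Finset.mem_filter, Finset.mem_piAntidiag]
    simp
  by_cases h1 : ∃ j, cm Q (A j) < b j
  · obtain ⟨j, hj⟩ := h1
    refine hm_cone K j (fun T hT => ?_) i
    rw [hFc] at hT ⊢
    obtain ⟨a, ha, h⟩ := hT
    refine ⟨a, ha, fun k => ?_⟩
    have haQ : a ∈ Q := (hQm a).2 ⟨ha, fun k => (Nat.le_add_right _ _).trans (h k)⟩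
    by_cases hk : k = j
    · subst hk
      rw [if_pos (Finset.mem_insert_self _ _)]
      exact (ev_le_cm haQ _).trans_lt hj
    · have := h k
      simpa only [Finset.mem_insert, hk, false_or] using this
  by_cases h2 : Q.Nonempty
  · push Not at h1
    have h3 : ∀ j, cm Q (A j) = b j := by
      intro j
      refine le_antisymm (Finset.sup_le fun a ha => ((hQm a).1 ha).2 j) (h1 j)
    have h4 : Fc (pw (Set.range fun l => eT (m l)) r) b = KQ Q A := by
      funext T
      apply propext
      rw [hFc]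
      constructor
      · rintro ⟨a, ha, h⟩
        refine ⟨a, (hQm a).2 ⟨ha, fun k => (Nat.le_add_right _ _).trans (h k)⟩, fun j hj => ?_⟩
        have := h j
        rw [if_pos hj] at this
        rw [h3]; exact this
      · rintro ⟨a, ha, h⟩
        obtain ⟨ha1, ha2⟩ := (hQm a).1 ha
        refine ⟨a, ha1, fun j => ?_⟩
        split_ifs with hj
        · have := h j hj
          rw [h3] at this
          exact this
        · exact ha2 j
    rw [h4]
    exact star K hr hq Q.card Q rfl (fun a ha => ((hQm a).1 ha).1) n A i hi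
  · refine hm_void K (Fc_down _ _) ?_ i
    rw [hFc]
    rintro ⟨a, ha, h⟩
    exact h2 ⟨a, (hQm a).2 ⟨ha, fun k => (Nat.le_add_right _ _).trans (h k)⟩⟩

/-- If all strands are acyclic then every cycle is a boundary. -/
theorem cycles_le {G : Set (Fin n →₀ ℕ)} {i : ℕ} (h : ∀ a, hm K (Fc G a) i = 0) :
    cycles (monIdeal K G) i Set.univ ≤ boundaries (monIdeal K G) i Set.univ := by
  intro c hc
  rw [← sum_pj c]
  refine Submodule.sum_mem _ fun a _ => ?_
  refine boundaries_mono _ i (Set.subset_univ {a}) ?_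
  exact cycles_le_of_hm (h a) (pj_mem_cycles a hc)

open MvPolynomial in
/-- Vanishing of `Tor`. -/
theorem tor_zero {r : ℕ} (hr : 1 ≤ r) (hq : 2 ^ r + r ≤ q + 1) (m : Fin q → Finset (Fin n))
    {i : ℕ} (hi : q.choose r ≤ i) :
    cycles (Ideal.span (Set.range fun l => ∏ j ∈ m l, (X j : MvPolynomial (Fin n) K)) ^ r) i
      Set.univ ≤
    boundaries (Ideal.span (Set.range fun l => ∏ j ∈ m l, (X j : MvPolynomial (Fin n) K)) ^ r) i
      Set.univ := by
  have h1 : Ideal.span (Set.range fun l => ∏ j ∈ m l, (X j : MvPolynomial (Fin n) K)) =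
      monIdeal K (Set.range fun l => eT (m l)) := by
    rw [monIdeal, ← Set.range_comp]
    congr 2
    funext l
    rw [Function.comp_apply, eT, monomial_sum_one]
    rfl
  rw [h1, monIdeal_pow]
  exact cycles_le K fun a => hm_sq K hr hq m a hi

end Pool.Agent.R690.Pd
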