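import Pool.Agent.R690.Kos.Cert

set_option autoImplicit false

/-!
# Removing dominated vertices, deleting vertices with acyclic link
-/

namespace Pool.Agent.R690.Kos

open Finset

variable {n : ℕ} (K : Type*) [Field K]

theorem hm_zero_of_exact {P : Finset (Fin n) → Prop} {i : ℕ}
    (h : ∀ z ∈ sc K P i, bd K n z = 0 → ∃ w ∈ sc K P (i + 1), bd K n w = z) : hm K P i = 0 := by
  rw [hm, rk]
  have : sc K P i ⊓ LinearMap.ker (bd K n) ≤ (sc K P (i + 1)).map (bd K n) := by
    rintro z ⟨hz, hz'⟩
    obtain ⟨w, hw, hw'⟩ := h z hz hz'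
    exact ⟨w, hw, hw'⟩
  have := Submodule.finrank_mono this
  omega

theorem exact_of_hm_zero {P : Finset (Fin n) → Prop} (hP : Down P) {i : ℕ} (h : hm K P i = 0)
    {z : Finset (Fin n) → K} (hz : z ∈ sc K P i) (hz' : bd K n z = 0) :
    ∃ w ∈ sc K P (i + 1), bd K n w = z := by
  have h1 : z ∈ (sc K P (i + 1)).map (bd K n) := by
    rw [exact_of_hm K hP h]; exact ⟨hz, hz'⟩
  exact h1

theorem as0_mem {P : Finset (Fin (n + 1)) → Prop} {i : ℕ} {y : Finset (Fin n) → K}
    (hy : y ∈ sc K (dl P) i) : as K y 0 ∈ sc K P i := by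
  intro T hT
  rw [as] at hT
  split_ifs at hT with h
  · exact absurd rfl hT
  · have h1 := hy _ hT
    rw [dl, io_pr h] at h1
    refine ⟨h1.1, ?_⟩
    rw [← io_pr h, card_io, h1.2]

/-- Deleting a vertex with acyclic link. -/
theorem hm_dl_zero {P : Finset (Fin (n + 1)) → Prop} (hP : Down P) {i : ℕ} (h : hm K P i = 0)
    (hl : hm K (lk P) i = 0) : hm K (dl P) i = 0 := by
  refine hm_zero_of_exact K fun z hz hz' => ?_
  have h1 : bd K (n + 1) (as K z 0) = 0 := by
    refine ext_r K ?_ ?_
    · rw [r0_bd, r0_as, r1_as, hz', map_zero]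
      funext T; simp [sg]
    · rw [r1_bd, r1_as, map_zero, map_zero]
  obtain ⟨w, hw, hw'⟩ := exact_of_hm_zero K hP h (as0_mem K hz) h1
  have h2 : bd K n (r1 K w) = 0 := by
    rw [← r1_bd, hw', r1_as]
  obtain ⟨u, hu, hu'⟩ := exact_of_hm_zero K hP.lk hl (r1_mem K hw) h2
  have h3 : bd K n (r0 K w) + sg K (r1 K w) = z := by
    rw [← r0_bd, hw', r0_as]
  refine ⟨r0 K w - sg K u, ?_, ?_⟩
  · refine Submodule.sub_mem _ (r0_mem K hw) ?_
    intro T hT
    have := sg_mem K hu T hT
    exact ⟨lk_dl hP this.1, this.2⟩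
  · rw [map_sub, bd_sg, hu', sub_neg_eq_add, h3]

/-- The part of a chain on the sets containing `v`. -/
def pv (v : Fin n) (z : Finset (Fin n) → K) (T : Finset (Fin n)) : K := if v ∈ T then z T else 0

/-- Removing a dominated vertex. -/
theorem hm_dom {P : Finset (Fin n) → Prop} (hP : Down P) {v v' : Fin n} (hv : v ≠ v')
    (hd : ∀ T, v ∈ T → P T → P (insert v' T)) {i : ℕ} (h : hm K (fun T => P T ∧ v ∉ T) i = 0) :
    hm K P i = 0 := by
  have hP' : Down fun T => P T ∧ v ∉ T := fun S T hT hST => ⟨hP S T hT.1 hST, fun hS => hT.2 (hST hS)⟩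
  refine hm_zero_of_exact K fun z hz hz' => ?_
  have hH : up K v' (pv K v z) ∈ sc K P (i + 1) := by
    intro T hT
    rw [up] at hT
    split_ifs at hT with h1
    · have h2 := right_ne_zero_of_mul hT
      rw [pv] at h2
      split_ifs at h2 with h3
      · have h4 := hz _ h2
        have h5 := hd _ h3 h4.1
        rw [Finset.insert_erase h1] at h5
        refine ⟨h5, ?_⟩
        have h6 := h4.2
        rw [Finset.card_erase_of_mem h1] at h6
        have := Finset.card_pos.2 ⟨v', h1⟩
        omega
      · exact absurd rfl h2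
    · exact absurd rfl hT
  have hbd : ∀ S, v ∈ S → bd K n (pv K v z) S = 0 := by
    intro S hS
    have h1 := congrFun hz' S
    rw [bd_apply, Pi.zero_apply] at h1
    rw [bd_apply, ← h1]
    refine Finset.sum_congr rfl fun t _ => ?_
    rw [pv, if_pos (Finset.mem_insert_of_mem hS)]
  have hz1 : z - bd K n (up K v' (pv K v z)) ∈ sc K (fun T => P T ∧ v ∉ T) i := by
    have h1 : z - bd K n (up K v' (pv K v z)) ∈ sc K P i :=
      Submodule.sub_mem _ hz (bd_mem hP hH)
    intro T hT
    refine ⟨⟨(h1 T hT).1, fun hvT => hT ?_⟩, (h1 T hT).2⟩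
    have h2 := congrFun (bd_up K v' (pv K v z)) T
    rw [Pi.add_apply] at h2
    have h3 : up K v' (bd K n (pv K v z)) T = 0 := by
      rw [up]
      split_ifs with h4
      · rw [hbd _ (Finset.mem_erase.2 ⟨hv, hvT⟩), mul_zero]
      · rfl
    rw [h3, add_zero, pv, if_pos hvT] at h2
    rw [Pi.sub_apply, h2, sub_self]
  have hz2 : bd K n (z - bd K n (up K v' (pv K v z))) = 0 := by
    rw [map_sub, bd_bd, hz', sub_zero]
  obtain ⟨w, hw, hw'⟩ := exact_of_hm_zero K hP' h hz1 hz2
  refine ⟨w + up K v' (pv K v z), Submodule.add_mem _ (fun T hT => ?_) hH, ?_⟩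
  · exact ⟨(hw T hT).1.1, (hw T hT).2⟩
  · rw [map_add, hw']; abel

/-- The restriction of a complex to a set of vertices. -/
def on (P : Finset (Fin n) → Prop) (W T : Finset (Fin n)) : Prop := T ⊆ W ∧ P T

theorem on_down {P : Finset (Fin n) → Prop} (hP : Down P) (W : Finset (Fin n)) : Down (on P W) :=
  fun S T hT hST => ⟨hST.trans hT.1, hP S T hT.2 hST⟩

/-- Removing all dominated vertices. -/
theorem hm_doms {P : Finset (Fin n) → Prop} (hP : Down P) {W : Finset (Fin n)}
    (hd : ∀ v, v ∉ W → ∃ v' ∈ W, ∀ T, v ∈ T → P T → P (insert v' T)) {i : ℕ}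
    (h : hm K (on P W) i = 0) : hm K P i = 0 := by
  have key : ∀ U : Finset (Fin n), Disjoint W U → hm K (on P (W ∪ U)) i = 0 := by
    intro U
    induction U using Finset.induction_on with
    | empty => intro _; rwa [Finset.union_empty]
    | insert v U hvU ih =>
      intro hdis
      rw [Finset.disjoint_insert_right] at hdis
      have ih' := ih hdis.2
      obtain ⟨v', hv', hdv⟩ := hd v hdis.1
      refine hm_dom K (on_down hP _) (v := v) (v' := v') (fun h => hdis.1 (h ▸ hv'))
        (fun T hvT hT => ⟨?_, hdv T hvT hT.2⟩) ?_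
      · refine Finset.insert_subset ?_ hT.1
        exact Finset.mem_union_left _ hv'
      · have : (fun T => on P (W ∪ insert v U) T ∧ v ∉ T) = on P (W ∪ U) := by
          funext T
          apply propext
          constructor
          · rintro ⟨⟨h1, h2⟩, h3⟩
            refine ⟨fun x hx => ?_, h2⟩
            have := h1 hx
            rw [Finset.mem_union, Finset.mem_insert] at this
            rw [Finset.mem_union]
            rcases this with h4 | h4 | h4
            · exact Or.inl h4
            · exact absurd (h4 ▸ hx) h3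
            · exact Or.inr h4
          · rintro ⟨h1, h2⟩
            refine ⟨⟨h1.trans ?_, h2⟩, fun h3 => ?_⟩
            · exact Finset.union_subset_union_right (Finset.subset_insert v U)
            · have := h1 h3
              rw [Finset.mem_union] at this
              exact this.elim hdis.1 hvU
        rw [this]
        exact ih'
  have h1 := key (univ \ W) Finset.disjoint_sdiff
  rw [Finset.union_sdiff_of_subset (Finset.subset_univ W)] at h1
  have h2 : on P univ = P := by
    funext T
    exact propext ⟨fun h => h.2, fun h => ⟨Finset.subset_univ T, h⟩⟩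
  rwa [h2] at h1

/-- A complex on few vertices has no homology in high degrees. -/
theorem hm_on_zero {P : Finset (Fin n) → Prop} (hP : Down P) {W : Finset (Fin n)}
    (hW : W.Nonempty) {i : ℕ} (hi : W.card ≤ i) : hm K (on P W) i = 0 := by
  by_cases h : P W
  · obtain ⟨v, hv⟩ := hW
    refine hm_cone K v (fun T hT => ?_) i
    have h1 := Finset.insert_subset hv hT.1
    exact ⟨h1, hP _ _ h h1⟩
  · have h1 := hm_add K (on_down hP W) i
    have h2 : nf (on P W) i = 0 := by
      refine nf_eq_zero fun T hT hc => ?_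
      have h3 := Finset.eq_of_subset_of_card_le hT.1 (by omega)
      exact h (h3 ▸ hT.2)
    omega

end Pool.Agent.R690.Kos
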